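import Pool.Agent.Lib.MP_7e9760_al.Main

/-!
MP_7e9760_al (cost of groups whose 2-generated subgroups are amenable): positive answer to Q1.

Every countable group all of whose 2-generated subgroups are amenable has cost at most 1.
-/

namespace Pool.Agent.Results.MP_7e9760_al.CostAtMostOne

open Pool.Agent.Lib.MP_7e9760_al

universe u

theorem result (G : Type u) [Group G] [Countable G] (hG : Amen2 G) : groupCost G ≤ 1 :=
  groupCost_le_one hG

end Pool.Agent.Results.MP_7e9760_al.CostAtMostOne
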